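import Mathlib
import Pool.Agent.H167R2.KKDist
import Pool.Agent.H167R2.KLDist

/-!
# A dimension-free Komlós theorem

For all vectors `v_1, …, v_n` in the Euclidean unit ball of `ℝ^d` with entries of absolute value at
most `δ` (`0 < δ ≤ 1`) and every `0 < ε ≤ 1/2` there is a (finitely supported) probability
distribution on points `y ∈ [-1,1]^n` such that every `y` in the support satisfies
`‖∑ y_j v_j‖_∞ ≤ min (22200 (log (1/ε))^(1/4))
  (3120 + 940000 δ (log (1/ε))^(1/2) (1 + 2 log (1/δ))^(3/2))`,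
and every coordinate `j` is a sign `±1` with probability at least `1 - ε`. The constants do not
depend on `n` or `d`.
-/

namespace Pool.Agent.Results.MP_c81d26_co.KomlosDimFree

theorem result (d n : ℕ) (v : Fin n → EuclideanSpace ℝ (Fin d)) (hv : ∀ j, ‖v j‖ ≤ 1)
    (δ : ℝ) (hδ0 : 0 < δ) (hδ1 : δ ≤ 1) (hvδ : ∀ j i, |v j i| ≤ δ)
    (ε : ℝ) (hε0 : 0 < ε) (hε : ε ≤ 1 / 2) :
    ∃ (K : ℕ) (w : Fin K → ℝ) (y : Fin K → Fin n → ℝ),
      (∀ k, 0 ≤ w k) ∧ ∑ k, w k = 1 ∧
      (∀ k j, -1 ≤ y k j ∧ y k j ≤ 1) ∧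
      (∀ k i, |(∑ j, y k j • v j) i| ≤
        min (22200 * (Real.log (1 / ε)) ^ (1 / 4 : ℝ))
          (3120 + 940000 * δ * Real.sqrt (Real.log (1 / ε))
            * (1 + 2 * Real.log (1 / δ)) ^ (3 / 2 : ℝ))) ∧
      ∀ j, ∑ k ∈ Finset.univ.filter (fun k => ¬ (y k j = 1 ∨ y k j = -1)), w k ≤ ε := by
  -- the coordinate matrix
  set a : Fin d → Fin n → ℝ := fun i j => v j i with ha
  have hcol : ∀ j, ∑ i, a i j ^ 2 ≤ 1 := by
    intro j
    have h1 : ‖v j‖ ^ 2 ≤ 1 := by
      have := norm_nonneg (v j)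
      have := hv j
      nlinarith
    rw [EuclideanSpace.norm_sq_eq] at h1
    refine le_trans (le_of_eq ?_) h1
    refine Finset.sum_congr rfl fun i _ => ?_
    rw [Real.norm_eq_abs, sq_abs]
  have key : ∃ (K : ℕ) (w : Fin K → ℝ) (y : Fin K → Fin n → ℝ),
      (∀ k, 0 ≤ w k) ∧ ∑ k, w k = 1 ∧
      (∀ k j, -1 ≤ y k j ∧ y k j ≤ 1) ∧
      (∀ k i, |∑ j, a i j * y k j| ≤
        min (22200 * (Real.log (1 / ε)) ^ (1 / 4 : ℝ))
          (3120 + 940000 * δ * Real.sqrt (Real.log (1 / ε))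
            * (1 + 2 * Real.log (1 / δ)) ^ (3 / 2 : ℝ))) ∧
      ∀ j, ∑ k ∈ Finset.univ.filter (fun k => ¬ (y k j = 1 ∨ y k j = -1)), w k ≤ ε := by
    apply H167KL.distribution
    intro p hp
    rcases min_choice (22200 * (Real.log (1 / ε)) ^ (1 / 4 : ℝ))
          (3120 + 940000 * δ * Real.sqrt (Real.log (1 / ε))
            * (1 + 2 * Real.log (1 / δ)) ^ (3 / 2 : ℝ)) with h | h
    · rw [h]
      exact H167KK.weighted a hcol ε hε0 hε p hp
    · rw [h]
      obtain ⟨x, hx1, hx2, hx3⟩ := H167KL.weighted (fun i j => a i j / δ) (1 / δ ^ 2)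
        (by rw [le_div_iff₀ (by positivity)]; nlinarith)
        (fun i j => by
          rw [abs_div, abs_of_pos hδ0, div_le_one hδ0]
          exact hvδ j i)
        (fun j => by
          simp only [div_pow]
          rw [← Finset.sum_div]
          exact div_le_div_of_nonneg_right (hcol j) (by positivity))
        ε hε0 hε p hp
      refine ⟨x, hx1, fun i => ?_, hx3⟩
      have h1 := hx2 i
      have h2 : ∑ j, a i j / δ * x j = (∑ j, a i j * x j) / δ := by
        rw [Finset.sum_div]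
        exact Finset.sum_congr rfl fun j _ => by ring
      rw [h2, abs_div, abs_of_pos hδ0, div_le_iff₀ hδ0] at h1
      refine h1.trans (le_of_eq ?_)
      have h3 : Real.sqrt (1 / δ ^ 2) = 1 / δ := by
        rw [show (1 : ℝ) / δ ^ 2 = (1 / δ) ^ 2 by rw [div_pow, one_pow]]
        exact Real.sqrt_sq (by positivity)
      have h4 : Real.log (1 / δ ^ 2) = 2 * Real.log (1 / δ) := by
        rw [show (1 : ℝ) / δ ^ 2 = (1 / δ) ^ 2 by rw [div_pow, one_pow], Real.log_pow]
        norm_num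
      unfold H167KL.fin
      rw [h3, h4]
      field_simp
  obtain ⟨K, w, y, h1, h2, h3, h4, h5⟩ := key
  refine ⟨K, w, y, h1, h2, h3, fun k i => ?_, h5⟩
  have h6 : (∑ j, y k j • v j) i = ∑ j, a i j * y k j := by
    rw [WithLp.ofLp_sum, Finset.sum_apply]
    refine Finset.sum_congr rfl fun j _ => ?_
    simp [ha, mul_comm]
  rw [h6]
  exact h4 k i

end Pool.Agent.Results.MP_c81d26_co.KomlosDimFree
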