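import Mathlib
import Pool.Agent.H167R2.KPDist

/-!
# The Komlós problem for vectors with bounded overlap, dimension-free form

There is an absolute constant `C` such that for all vectors `v_1, …, v_n` in the Euclidean unit
ball of `ℝ^d` with entries of absolute value at most `δ` (`0 < δ ≤ 1`), each having a common
nonzero coordinate with at most `Δ` of them, every `r` and every starting point
`x⁰ ∈ [-1,1]^n`, with `λ = 1 + log (1/δ)`, `w = (1 + log Δ) (λ + log (1 + log Δ))`,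
`E (x) = min (x^{1/4}) (1 + δ x^{1/2} λ^{3/2})` and `log^{(k)}` the `k`-th iterate of
`x ↦ log (1 + x)`:

* there are signs `x` with all coordinates of `∑ (x_j - x⁰_j) v_j` at most
  `C (r E (w) + E (λ + log^{(r+1)} (min d n)))`;
* for every `0 < ε ≤ 1/2` there is a finitely supported probability distribution on points
  `y ∈ [-1,1]^n` such that surely all coordinates of `∑ (y_j - x⁰_j) v_j` are at most
  `C ((r + 1) E (w) + E (λ + log^{(r+1)} (log (1/ε))))` and every coordinate is a sign with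
  probability at least `1 - ε`. This bound does not depend on `n` or `d`.
-/

namespace Pool.Agent.Results.MP_c81d26_co.KomlosIterFree

theorem result : ∃ C : ℝ, ∀ (d n Δ : ℕ) (v : Fin n → EuclideanSpace ℝ (Fin d)) (δ : ℝ),
    (∀ j, ‖v j‖ ≤ 1) → 0 < δ → δ ≤ 1 → (∀ j i, |v j i| ≤ δ) → 1 ≤ Δ →
    (∀ j, (Finset.univ.filter (fun k => ∃ i, v j i ≠ 0 ∧ v k i ≠ 0)).card ≤ Δ) →
    ∀ (r : ℕ) (x₀ : Fin n → ℝ), (∀ j, |x₀ j| ≤ 1) →
    (∃ x : Fin n → ℝ, (∀ j, x j = 1 ∨ x j = -1) ∧
      ∀ i, |(∑ j, (x j - x₀ j) • v j) i| ≤ C *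
        (r * min
            (((1 + Real.log Δ) * (1 + Real.log (1 / δ) + Real.log (1 + Real.log Δ)))
              ^ (1 / 4 : ℝ))
            (1 + δ * Real.sqrt
                ((1 + Real.log Δ) * (1 + Real.log (1 / δ) + Real.log (1 + Real.log Δ)))
              * (1 + Real.log (1 / δ)) ^ (3 / 2 : ℝ))
          + min
            ((1 + Real.log (1 / δ) + (fun x : ℝ => Real.log (1 + x))^[r + 1] (min d n : ℕ)) ^ (1 / 4 : ℝ))
            (1 + δ * Real.sqrt
                (1 + Real.log (1 / δ) + (fun x : ℝ => Real.log (1 + x))^[r + 1] (min d n : ℕ))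
              * (1 + Real.log (1 / δ)) ^ (3 / 2 : ℝ)))) ∧
    ∀ ε : ℝ, 0 < ε → ε ≤ 1 / 2 →
    ∃ (K : ℕ) (w : Fin K → ℝ) (y : Fin K → Fin n → ℝ),
      (∀ k, 0 ≤ w k) ∧ ∑ k, w k = 1 ∧
      (∀ k j, -1 ≤ y k j ∧ y k j ≤ 1) ∧
      (∀ k i, |(∑ j, (y k j - x₀ j) • v j) i| ≤ C *
        ((r + 1) * min
            (((1 + Real.log Δ) * (1 + Real.log (1 / δ) + Real.log (1 + Real.log Δ)))
              ^ (1 / 4 : ℝ))
            (1 + δ * Real.sqrt
                ((1 + Real.log Δ) * (1 + Real.log (1 / δ) + Real.log (1 + Real.log Δ)))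
              * (1 + Real.log (1 / δ)) ^ (3 / 2 : ℝ))
          + min
            ((1 + Real.log (1 / δ)
              + (fun x : ℝ => Real.log (1 + x))^[r + 1] (Real.log (1 / ε))) ^ (1 / 4 : ℝ))
            (1 + δ * Real.sqrt (1 + Real.log (1 / δ)
                + (fun x : ℝ => Real.log (1 + x))^[r + 1] (Real.log (1 / ε)))
              * (1 + Real.log (1 / δ)) ^ (3 / 2 : ℝ)))) ∧
      ∀ j, ∑ k ∈ Finset.univ.filter (fun k => ¬ (y k j = 1 ∨ y k j = -1)), w k ≤ ε := by
  classical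
  refine ⟨70000000, fun d n Δ v δ hv hδ0 hδ1 hvδ hΔ1 hΔ r x₀ hx₀ => ?_⟩
  set a : Fin d → Fin n → ℝ := fun i j => v j i with ha
  have hcol : ∀ j, ∑ i, a i j ^ 2 ≤ 1 := by
    intro j
    have h1 : ‖v j‖ ^ 2 ≤ 1 := by
      have := norm_nonneg (v j)
      have := hv j
      nlinarith
    rw [EuclideanSpace.norm_sq_eq] at h1
    refine le_trans (le_of_eq ?_) h1
    refine Finset.sum_congr rfl fun i _ => ?_
    rw [Real.norm_eq_abs, sq_abs]
  have hnb : ∀ j, (H167BK.nb a j).card ≤ Δ := by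
    intro j
    by_cases hj : ∃ i, v j i ≠ 0
    · refine le_trans (Finset.card_le_card fun k hk => ?_) (hΔ j)
      unfold H167BK.nb at hk
      rw [Finset.mem_filter] at hk ⊢
      refine ⟨hk.1, ?_⟩
      rcases hk.2 with h | ⟨i, h1, h2⟩
      · rw [h]
        obtain ⟨i, hi⟩ := hj
        exact ⟨i, hi, hi⟩
      · exact ⟨i, h1, h2⟩
    · have h1 : H167BK.nb a j ⊆ {j} := by
        intro k hk
        unfold H167BK.nb at hk
        rw [Finset.mem_filter] at hk
        rcases hk.2 with h | ⟨i, h1, _⟩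
        · rw [Finset.mem_singleton]; exact h
        · exact absurd ⟨i, h1⟩ hj
      refine (Finset.card_le_card h1).trans ?_
      rw [Finset.card_singleton]
      exact hΔ1
  have hsum : ∀ (y : Fin n → ℝ) (i : Fin d),
      (∑ j, (y j - x₀ j) • v j) i = ∑ j, a i j * (y j - x₀ j) := by
    intro y i
    simp [a, mul_comm]
  refine ⟨?_, fun ε hε0 hε => ?_⟩
  · obtain ⟨y, hy1, hy2⟩ := H167KN.komlos_form2 a δ hδ0 hδ1 (fun i j => hvδ j i) hcol Δ hΔ1 hnb r
      x₀ hx₀
    refine ⟨y, fun j => ?_, fun i => ?_⟩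
    · rcases eq_or_eq_neg_of_abs_eq (hy1 j) with h | h
      · exact Or.inl h
      · exact Or.inr h
    · rw [hsum y i]
      have h2 := hy2 i
      rw [Fintype.card_fin, Fintype.card_fin] at h2
      exact h2
  · obtain ⟨K, w, y, h1, h2, h3, h4, h5⟩ := H167KN.komlos_dist d n a δ hδ0 hδ1
      (fun i j => hvδ j i) hcol Δ hΔ1 hnb r x₀ hx₀ ε hε0 hε
    refine ⟨K, w, y, h1, h2, h3, fun k i => ?_, h5⟩
    rw [hsum (y k) i]
    exact h4 k i

end Pool.Agent.Results.MP_c81d26_co.KomlosIterFree
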