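import Mathlib
import Pool.Agent.H156R2.Local2

set_option autoImplicit false

namespace Pool.Agent.Results.MP_c81d26_co.LocalBound

/-- **Komlós up to an arbitrarily small multiple of the `ℓ₁` norm of the row.**
For every `ε ∈ (0,1]` and every real `m × n` matrix (no relation between `m` and `n`) whose columns
have Euclidean norm at most `1` there is `x ∈ {-1,1}ⁿ` such that for every row `i`
`|⟨aᵢ,x⟩| ≤ ε ‖aᵢ‖₁ + (8 log (1/ε) + 31)/ε`. -/
theorem result : ∀ e : ℝ, 0 < e → e ≤ 1 → ∀ m n : ℕ, ∀ a : Fin m → Fin n → ℝ,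
    (∀ j, ∑ i, a i j ^ 2 ≤ 1) →
    ∃ x : Fin n → ℝ, (∀ j, x j = 1 ∨ x j = -1) ∧
      ∀ i, |∑ j, a i j * x j| ≤ e * (∑ j, |a i j|) + (8 * Real.log (1 / e) + 31) / e := by
  intro e he he1 m n a ha
  exact Pool.Agent.H156R2.local_komlos a ha e he he1

end Pool.Agent.Results.MP_c81d26_co.LocalBound
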