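import Pool.Agent.H320R2.LD.Final

set_option autoImplicit false

open Finset

namespace Pool.Agent.Results.MP_c81d26_co.SparseKomlos

open Pool.Agent.H320R2.LD

open Classical in
/-- Absolute constant `C`: for vectors of Euclidean norm at most one whose entries have absolute
value at most `ε`, with at most `ε⁻³` nonzero entries in every vector and in every coordinate,
there are signs for which the `k`-th coordinate of the signed sum is at most
`C * max 1 (norm of the k-th row)`. -/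
theorem result :
    ∃ C : ℝ, 0 < C ∧ ∀ ε : ℝ, 0 < ε → ε ≤ 1 →
      ∀ (d n : ℕ) (v : Fin n → EuclideanSpace ℝ (Fin d)),
      (∀ i, ‖v i‖ ≤ 1) → (∀ i k, |v i k| ≤ ε) →
      (∀ k, ((Finset.univ.filter (fun i => v i k ≠ 0)).card : ℝ) ≤ ε ^ (-3 : ℤ)) →
      (∀ i, ((Finset.univ.filter (fun k => v i k ≠ 0)).card : ℝ) ≤ ε ^ (-3 : ℤ)) →
      ∃ x : Fin n → ℝ, (∀ i, x i = 1 ∨ x i = -1) ∧
        ∀ k, |∑ i, x i * v i k| ≤ C * max 1 (Real.sqrt (∑ i, (v i k) ^ 2)) := by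
  obtain ⟨C, hC, h⟩ := main
  refine ⟨C, hC, fun ε hε hε1 d n v h1 h3 h4 h5 => ?_⟩
  have ht : (1 : ℝ) ≤ (ε ^ 2)⁻¹ := by
    rw [one_le_inv₀ (by positivity)]
    nlinarith
  have ht32 : ((ε ^ 2)⁻¹) ^ (3/2 : ℝ) = ε ^ (-3 : ℤ) := by
    rw [← Real.rpow_natCast, ← Real.rpow_neg hε.le, ← Real.rpow_mul hε.le, ← Real.rpow_intCast]
    norm_num
  set w : Fin d → ℝ := fun k => max 1 (Real.sqrt (∑ i, (v i k) ^ 2)) with hw
  have hw1 : ∀ k, 1 ≤ w k := fun k => le_max_left _ _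
  have hw0 : ∀ k, 0 < w k := fun k => lt_of_lt_of_le one_pos (hw1 k)
  have hsq : ∀ k i, (v i k / w k) ^ 2 ≤ (v i k) ^ 2 := by
    intro k i
    rw [div_pow]
    exact div_le_self (sq_nonneg _) (one_le_pow₀ (hw1 k))
  have hne : ∀ k i, v i k / w k ≠ 0 ↔ v i k ≠ 0 := by
    intro k i
    rw [div_ne_zero_iff]
    exact ⟨fun h => h.1, fun h => ⟨h, (hw0 k).ne'⟩⟩
  obtain ⟨x, hx1, hx2⟩ := h ((ε ^ 2)⁻¹) ht (Fin n) (Fin d) (fun k i => v i k / w k) (by
    refine ⟨fun R i => ?_, fun R => ?_, fun i => ?_, fun R => ?_, fun i => ?_⟩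
    · have h6 : (v i R) ^ 2 ≤ ε ^ 2 := by
        rw [← sq_abs]
        exact pow_le_pow_left₀ (abs_nonneg _) (h3 i R) 2
      calc (v i R / w R) ^ 2 * (ε ^ 2)⁻¹ ≤ ε ^ 2 * (ε ^ 2)⁻¹ :=
            mul_le_mul_of_nonneg_right ((hsq R i).trans h6) (by positivity)
        _ = 1 := mul_inv_cancel₀ (by positivity)
    · have e1 : ∑ i, (v i R / w R) ^ 2 = (∑ i, (v i R) ^ 2) / (w R) ^ 2 := by
        rw [Finset.sum_div]
        exact Finset.sum_congr rfl fun i _ => div_pow _ _ _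
      rw [e1, div_le_one (by have := hw0 R; positivity)]
      have e2 : Real.sqrt (∑ i, (v i R) ^ 2) ≤ w R := le_max_right _ _
      have e3 : 0 ≤ ∑ i, (v i R) ^ 2 := Finset.sum_nonneg fun i _ => sq_nonneg _
      calc ∑ i, (v i R) ^ 2 = (Real.sqrt (∑ i, (v i R) ^ 2)) ^ 2 := (Real.sq_sqrt e3).symm
        _ ≤ (w R) ^ 2 := pow_le_pow_left₀ (Real.sqrt_nonneg _) e2 2
    · have h6 := h1 i
      have h7 : ‖v i‖ ^ 2 = ∑ k, (v i k) ^ 2 := by
        rw [EuclideanSpace.norm_sq_eq]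
        exact Finset.sum_congr rfl fun k _ => by rw [Real.norm_eq_abs, sq_abs]
      calc ∑ R, (v i R / w R) ^ 2 ≤ ∑ R, (v i R) ^ 2 :=
            Finset.sum_le_sum fun R _ => hsq R i
        _ = ‖v i‖ ^ 2 := h7.symm
        _ ≤ 1 := pow_le_one₀ (norm_nonneg _) h6
    · rw [ht32]
      simp_rw [hne]
      convert h4 R using 3
    · rw [ht32]
      simp_rw [hne]
      convert h5 i using 3)
  refine ⟨x, hx1, fun k => ?_⟩
  have h8 := hx2 k
  have h9 : ∑ i, x i * v i k = w k * ∑ i, v i k / w k * x i := by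
    rw [Finset.mul_sum]
    refine Finset.sum_congr rfl fun i _ => ?_
    have := (hw0 k).ne'
    field_simp
  rw [h9, abs_mul, abs_of_pos (hw0 k), mul_comm]
  exact mul_le_mul_of_nonneg_right h8 (hw0 k).le

end Pool.Agent.Results.MP_c81d26_co.SparseKomlos
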